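import Pool.Agent.V11202.GP.D
set_option autoImplicit false

/-! Positive groups on Hilbert spaces: the spectral bound equals the growth bound. -/

namespace Pool.Agent.Results.MP_e5770a_an.PositiveGroups

open Filter Topology MeasureTheory Set Pool.Agent.V11202.GP

/-- `P` is a closed, normal and generating convex cone of `H`. -/
structure IsOrderCone {H : Type*} [NormedAddCommGroup H] [NormedSpace ℝ H] (P : Set H) : Prop where
  closed : IsClosed P
  zero_mem : (0 : H) ∈ P
  add_mem : ∀ x ∈ P, ∀ y ∈ P, x + y ∈ P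
  smul_mem : ∀ c : ℝ, 0 ≤ c → ∀ x ∈ P, c • x ∈ P
  normal : ∃ c : ℝ, 0 < c ∧ ∀ x ∈ P, ∀ y, y - x ∈ P → ‖x‖ ≤ c * ‖y‖
  generating : ∀ x, ∃ y ∈ P, ∃ z ∈ P, x = y - z

/-- `E` with the real linear map `ι` is the complexification `H ⊕ i H` of `H`. -/
structure IsComplexification {H E : Type*} [NormedAddCommGroup H] [NormedSpace ℝ H]
    [NormedAddCommGroup E] [InnerProductSpace ℂ E] (ι : H →ₗ[ℝ] E) : Prop where
  decomp : ∀ z : E, ∃ x y : H, z = ι x + Complex.I • ι y
  norm_sq : ∀ x y : H, ‖ι x + Complex.I • ι y‖ ^ 2 = ‖x‖ ^ 2 + ‖y‖ ^ 2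

/-- `T` is a strongly continuous group of bounded operators. -/
structure IsC0Group {E : Type*} [NormedAddCommGroup E] [NormedSpace ℂ E]
    (T : ℝ → E →L[ℂ] E) : Prop where
  zero : T 0 = 1
  add : ∀ s t, T (s + t) = T s * T t
  cont : ∀ x, Continuous fun t => T t x

/-- `x` is in the domain of the generator `A` of the group `T` and `A x = v`. -/
def IsGen {E : Type*} [NormedAddCommGroup E] [NormedSpace ℂ E]
    (T : ℝ → E →L[ℂ] E) (x v : E) : Prop :=
  HasDerivAt (fun t : ℝ => T t x) v 0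

/-- The resolvent set of the generator `A` of `T`: the `z` for which `z - A`, as a map from the
domain of `A` to `E`, has a bounded two-sided inverse `R`. -/
def resolventSetOf {E : Type*} [NormedAddCommGroup E] [NormedSpace ℂ E]
    (T : ℝ → E →L[ℂ] E) : Set ℂ :=
  {z | ∃ R : E →L[ℂ] E, (∀ y, IsGen T (R y) (z • R y - y)) ∧
    ∀ x v, IsGen T x v → R (z • x - v) = x}

section

set_option linter.unusedSectionVars false

variable {H E : Type*} [NormedAddCommGroup H] [InnerProductSpace ℝ H] [CompleteSpace H]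
  [NormedAddCommGroup E] [InnerProductSpace ℂ E] [CompleteSpace E]

theorem norm_ι {ι : H →ₗ[ℝ] E} (hι : IsComplexification ι) (x : H) : ‖ι x‖ = ‖x‖ := by
  have h := hι.norm_sq x 0
  rw [map_zero, smul_zero, add_zero, norm_zero] at h
  have h2 : ‖ι x‖ ^ 2 = ‖x‖ ^ 2 := by linarith
  exact (pow_left_inj₀ (norm_nonneg _) (norm_nonneg _) two_ne_zero).mp h2

/-- integrals of functions with values in the cone -/
theorem integral_mem {P : Set H} (hP : IsOrderCone P) {f : ℝ → H} {s : Set ℝ}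
    (hf : IntegrableOn f s) (hfP : ∀ t, f t ∈ P) : ∫ t in s, f t ∈ P := by
  let C : ProperCone ℝ H :=
    { carrier := P
      add_mem' := fun {x y} hx hy => hP.add_mem x hx y hy
      zero_mem' := hP.zero_mem
      smul_mem' := fun c x hx => hP.smul_mem c c.2 x hx
      isClosed' := hP.closed }
  by_contra hcon
  have hcon' : (∫ t in s, f t) ∉ C := hcon
  obtain ⟨φ, h1, h2⟩ := C.hyperplane_separation_point hcon'
  have h3 : φ (∫ t in s, f t) = ∫ t in s, φ (f t) := (φ.integral_comp_comm hf).symm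
  rw [h3] at h2
  have h4 : 0 ≤ ∫ t in s, φ (f t) := integral_nonneg fun t => h1 _ (hfP t)
  linarith

/-- positivity: the resolvent is dominated on the cone -/
theorem dominated {P : Set H} (hP : IsOrderCone P) {ι : H →ₗ[ℝ] E} (hι : IsComplexification ι)
    {T : ℝ → E →L[ℂ] E} (hc : ∀ x, Continuous fun t => T t x)
    (hpos : ∀ t, ∀ x ∈ P, ∃ y ∈ P, T t (ι x) = ι y) {c : ℝ} (hc0 : 0 < c)
    (hn : ∀ x ∈ P, ∀ y, y - x ∈ P → ‖x‖ ≤ c * ‖y‖) {M w : ℝ}
    (hM : ∀ t, 0 ≤ t → ‖T t‖ ≤ M * Real.exp (w * t)) {a : ℝ} (haw : w < a) (ξ : ℝ)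
    {x : H} (hx : x ∈ P) :
    ‖lap T (zz a ξ) (ι x)‖ ≤ 2 * (2 * c + 1) * ‖lap T a (ι x)‖ := by
  choose y hyP hy using fun t => hpos t x hx
  let ιi : H →ₗᵢ[ℝ] E := ⟨ι, norm_ι hι⟩
  let ιL : H →L[ℝ] E := ιi.toContinuousLinearMap
  have hιL : ∀ u, ιL u = ι u := fun _ => rfl
  have hyc : Continuous y := by
    rw [ιi.isometry.isEmbedding.continuous_iff]
    have : (ιi ∘ y) = fun t => T t (ι x) := by
      ext t
      exact (hy t).symm
    rw [this]
    exact hc _
  set k : ℝ → H := fun t => Real.exp (-(a * t)) • y t with hk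
  have hkc : Continuous k := by
    have : Continuous fun t : ℝ => Real.exp (-(a * t)) := by fun_prop
    exact this.smul hyc
  have hkP : ∀ t, k t ∈ P := fun t => hP.smul_mem _ (Real.exp_pos _).le _ (hyP t)
  have hιk : ∀ t, ι (k t) = Complex.exp (-((a : ℂ) * t)) • T t (ι x) := by
    intro t
    rw [hk, hy t]
    simp only [map_smul]
    rw [← Complex.coe_smul]
    congr 1
    push_cast
    rfl
  have haw' : w < (a : ℂ).re := by simpa using haw
  have hgi := int_g hc hM haw' (ι x)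
  have hki : IntegrableOn k (Ioi 0) := by
    refine Integrable.mono hgi hkc.aestronglyMeasurable (ae_of_all _ fun t => ?_)
    rw [← hιk t, norm_ι hι]
  have hui : ∀ u : ℝ → ℝ, Continuous u → (∀ t, |u t| ≤ 2) →
      IntegrableOn (fun t => u t • k t) (Ioi 0) := by
    intro u hu hu2
    refine (hki.norm.const_mul 2).mono' (hu.smul hkc).aestronglyMeasurable
      (ae_of_all _ fun t => ?_)
    rw [norm_smul, Real.norm_eq_abs]
    exact mul_le_mul_of_nonneg_right (hu2 t) (norm_nonneg _)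
  set Y := ∫ t in Ioi (0 : ℝ), k t with hY
  have hYP : Y ∈ P := integral_mem hP hki hkP
  have hιY : ι Y = lap T a (ι x) := by
    unfold lap
    rw [← hιL, hY, ← ιL.integral_comp_comm hki]
    congr 1
    ext t
    exact hιk t
  -- the dominated integrals
  have hdom : ∀ u : ℝ → ℝ, Continuous u → (∀ t, |u t| ≤ 1) →
      ‖∫ t in Ioi (0 : ℝ), u t • k t‖ ≤ (2 * c + 1) * ‖Y‖ := by
    intro u hu hu1
    set U := ∫ t in Ioi (0 : ℝ), u t • k t with hU
    have hui1 := hui u hu (fun t => (hu1 t).trans (by norm_num))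
    have e1 : Y + U ∈ P := by
      rw [hY, hU, ← integral_add hki hui1]
      refine integral_mem hP (hki.add hui1) fun t => ?_
      have : k t + u t • k t = (1 + u t) • k t := by rw [add_smul, one_smul]
      rw [this]
      exact hP.smul_mem _ (by have := (abs_le.mp (hu1 t)).1; linarith) _ (hkP t)
    have e2 : Y - U ∈ P := by
      rw [hY, hU, ← integral_sub hki hui1]
      refine integral_mem hP (hki.sub hui1) fun t => ?_
      have : k t - u t • k t = (1 - u t) • k t := by rw [sub_smul, one_smul]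
      rw [this]
      exact hP.smul_mem _ (by have := (abs_le.mp (hu1 t)).2; linarith) _ (hkP t)
    have e3 : (2 : ℝ) • Y - (Y + U) = Y - U := by rw [two_smul]; abel
    have e4 := hn (Y + U) e1 ((2 : ℝ) • Y) (by rw [e3]; exact e2)
    rw [norm_smul] at e4
    have e5 : ‖U‖ ≤ ‖Y + U‖ + ‖Y‖ := by
      calc ‖U‖ = ‖(Y + U) - Y‖ := by congr 1; abel
        _ ≤ _ := norm_sub_le _ _
    have e6 : ‖(2 : ℝ)‖ = 2 := by norm_num
    rw [e6] at e4
    linarith
  set Cc := ∫ t in Ioi (0 : ℝ), Real.cos (2 * Real.pi * ξ * t) • k t with hCc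
  set Ss := ∫ t in Ioi (0 : ℝ), Real.sin (2 * Real.pi * ξ * t) • k t with hSs
  have hcosc : Continuous fun t : ℝ => Real.cos (2 * Real.pi * ξ * t) := by fun_prop
  have hsinc : Continuous fun t : ℝ => Real.sin (2 * Real.pi * ξ * t) := by fun_prop
  have hCi := hui _ hcosc (fun t => (Real.abs_cos_le_one _).trans (by norm_num))
  have hSi := hui _ hsinc (fun t => (Real.abs_sin_le_one _).trans (by norm_num))
  have hCe : ι Cc = ∫ t in Ioi (0 : ℝ), ιL (Real.cos (2 * Real.pi * ξ * t) • k t) := by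
    rw [← hιL, hCc, ← ιL.integral_comp_comm hCi]
  have hSe : ι Ss = ∫ t in Ioi (0 : ℝ), ιL (Real.sin (2 * Real.pi * ξ * t) • k t) := by
    rw [← hιL, hSs, ← ιL.integral_comp_comm hSi]
  have hR : lap T (zz a ξ) (ι x) = ι Cc - Complex.I • ι Ss := by
    unfold lap
    rw [hCe, hSe, ← integral_smul, ← integral_sub]
    · congr 1
      ext t
      have q1 : ι (Real.cos (2 * Real.pi * ξ * t) • k t) =
          Real.cos (2 * Real.pi * ξ * t) • ι (k t) := map_smul ι _ _
      have q2 : ι (Real.sin (2 * Real.pi * ξ * t) • k t) =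
          Real.sin (2 * Real.pi * ξ * t) • ι (k t) := map_smul ι _ _
      rw [hιL, hιL, q1, q2, hιk t]
      rw [← Complex.coe_smul, ← Complex.coe_smul, smul_smul, smul_smul, smul_smul, ← sub_smul]
      congr 1
      have e1 : Complex.exp (-(zz a ξ * t)) =
          Complex.exp (-((a : ℂ) * t)) * Complex.exp (-(2 * Real.pi * ξ * t : ℝ) * Complex.I) := by
        rw [← Complex.exp_add]
        congr 1
        simp only [zz]
        push_cast
        ring
      rw [e1, ← Complex.ofReal_neg, Complex.exp_ofReal_mul_I]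
      rw [Real.cos_neg, Real.sin_neg]
      push_cast
      ring
    · exact ιL.integrable_comp hCi
    · exact (ιL.integrable_comp hSi).smul Complex.I
  rw [hR, ← hιY, norm_ι hι]
  have e1 := hdom _ hcosc (fun t => Real.abs_cos_le_one _)
  have e2 := hdom _ hsinc (fun t => Real.abs_sin_le_one _)
  calc ‖ι Cc - Complex.I • ι Ss‖ ≤ ‖ι Cc‖ + ‖Complex.I • ι Ss‖ := norm_sub_le _ _
    _ = ‖Cc‖ + ‖Ss‖ := by rw [norm_smul, Complex.norm_I, one_mul, norm_ι hι, norm_ι hι]
    _ ≤ (2 * c + 1) * ‖Y‖ + (2 * c + 1) * ‖Y‖ := by gcongr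
    _ = _ := by ring

end

/-- **Positive groups on Hilbert spaces.** Let `H` be a real Hilbert space with a closed, normal
and generating cone `P`, let `E` be its complexification and `T` a strongly continuous group of
bounded operators on `E`, each of which maps `P` to `P`. Then the growth bound
`ω₀ = lim log ‖T t‖ / t` is the supremum of the real parts of the points of the spectrum of the
generator of `T`. -/
theorem result (H E : Type*) [NormedAddCommGroup H] [InnerProductSpace ℝ H] [CompleteSpace H]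
    [Nontrivial H] [NormedAddCommGroup E] [InnerProductSpace ℂ E] [CompleteSpace E]
    (P : Set H) (hP : IsOrderCone P) (ι : H →ₗ[ℝ] E) (hι : IsComplexification ι)
    (T : ℝ → E →L[ℂ] E) (hT : IsC0Group T)
    (hpos : ∀ t, ∀ x ∈ P, ∃ y ∈ P, T t (ι x) = ι y) :
    ∃ ω₀ : ℝ, Tendsto (fun t => Real.log ‖T t‖ / t) atTop (𝓝 ω₀) ∧
      IsLUB (Complex.re '' (resolventSetOf T)ᶜ) ω₀ := by
  have hE : Nontrivial E := by
    obtain ⟨x, hx⟩ := exists_ne (0 : H)
    refine ⟨⟨ι x, 0, fun h => hx ?_⟩⟩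
    have := norm_ι hι x
    rw [h, norm_zero] at this
    exact norm_eq_zero.mp this.symm
  have ha := hT.add
  have h0 := hT.zero
  have hc := hT.cont
  obtain ⟨ω, hω, hlow⟩ := growth h0 ha hc
  have hp := norm_pos' h0 ha
  have hup : ∀ w, ω < w → ∃ M : ℝ, 0 < M ∧ ∀ t, 0 ≤ t → ‖T t‖ ≤ M * Real.exp (w * t) :=
    fun w hw => exp_bound h0 ha hc hω hw
  have hlow' : ∀ t, 0 < t → Real.exp (ω * t) ≤ ‖T t‖ := by
    intro t ht
    rw [← Real.le_log_iff_exp_le (hp t)]
    have := hlow t ht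
    rwa [le_div_iff₀ ht] at this
  -- the Laplace transform is the resolvent
  have hres : ∀ z : ℂ, ω < z.re → ∃ R : E →L[ℂ] E, (∀ x, R x = lap T z x) ∧
      (∀ y, IsGen T (R y) (z • R y - y)) ∧ ∀ x v, IsGen T x v → R (z • x - v) = x := by
    intro z hz
    obtain ⟨M, _, hM⟩ := hup ((ω + z.re) / 2) (by linarith)
    obtain ⟨R, hR⟩ := exists_res hc hM (z := z) (by linarith)
    refine ⟨R, hR, fun y => ?_, fun x v h => ?_⟩
    · rw [hR]
      exact lap_gen ha h0 hc hM (by linarith) y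
    · rw [hR]
      exact lap_left ha h0 hc hM (by linarith) h
  refine ⟨ω, hω, ?_, ?_⟩
  · rintro _ ⟨z, hz, rfl⟩
    by_contra hcon
    push Not at hcon
    apply hz
    obtain ⟨R, _, h1, h2⟩ := hres z hcon
    exact ⟨R, h1, h2⟩
  · intro b hb
    by_contra hcon
    push Not at hcon
    -- the point ω is in the resolvent set
    have hmem : (ω : ℂ) ∈ resolventSetOf T := by
      by_contra h
      have := hb ⟨(ω : ℂ), h, rfl⟩
      rw [Complex.ofReal_re] at this
      linarith
    obtain ⟨R0, h1, h2⟩ := hmem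
    set r := ‖R0‖ with hr
    have hr0 : 0 ≤ r := norm_nonneg _
    set δ := 1 / (2 * (r + 1)) with hδ
    have hδ0 : 0 < δ := by positivity
    -- bound of the real resolvents
    have hreal : ∀ a, ω < a → a ≤ ω + δ → ∀ x, ‖lap T a x‖ ≤ 2 * r * ‖x‖ := by
      intro a ha1 ha2 x
      obtain ⟨R, hR, h3, h4⟩ := hres a (by simpa using ha1)
      rw [← hR]
      -- R x = R0 x + (ω - a) R0 (R x)
      have e1 := h2 _ _ (h3 x)
      have e2 : (ω : ℂ) • R x - ((a : ℂ) • R x - x) = x + ((ω - a : ℝ) : ℂ) • R x := by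
        push_cast
        rw [sub_smul]
        abel
      rw [e2, map_add, map_smul] at e1
      have e3 : ‖R x‖ ≤ r * ‖x‖ + δ * (r * ‖R x‖) := by
        calc ‖R x‖ = ‖R0 x + ((ω - a : ℝ) : ℂ) • R0 (R x)‖ := by rw [e1]
          _ ≤ ‖R0 x‖ + ‖((ω - a : ℝ) : ℂ) • R0 (R x)‖ := norm_add_le _ _
          _ ≤ r * ‖x‖ + δ * (r * ‖R x‖) := by
              rw [norm_smul, Complex.norm_real, Real.norm_eq_abs]
              have f1 : |ω - a| ≤ δ := by rw [abs_le]; constructor <;> linarith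
              have f2 := R0.le_opNorm x
              have f3 := R0.le_opNorm (R x)
              gcongr
      have e4 : δ * r ≤ 1 / 2 := by
        rw [hδ, div_mul_eq_mul_div, div_le_div_iff₀ (by positivity) (by norm_num)]
        linarith
      have e5 : 0 ≤ ‖R x‖ := norm_nonneg _
      nlinarith
    obtain ⟨c, hc0, hn⟩ := hP.normal
    -- uniform boundedness
    let J := {p : ℝ × ℝ // ω < p.1 ∧ p.1 ≤ ω + δ}
    have hg : ∀ p : J, ∃ R : E →L[ℂ] E, ∀ x, R x = lap T (zz p.1.1 p.1.2) x := by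
      intro p
      obtain ⟨R, hR, _⟩ := hres (zz p.1.1 p.1.2) (by rw [zz_re]; exact p.2.1)
      exact ⟨R, hR⟩
    choose g hg using hg
    have hcone : ∀ x ∈ P, ∃ C, ∀ p : J, ‖g p (ι x)‖ ≤ C := by
      intro x hx
      refine ⟨2 * (2 * c + 1) * (2 * r * ‖ι x‖), fun p => ?_⟩
      rw [hg]
      obtain ⟨M, _, hM⟩ := hup ((ω + p.1.1) / 2) (by linarith [p.2.1])
      have e1 := dominated hP hι hc hpos hc0 hn hM (a := p.1.1) (by linarith [p.2.1]) p.1.2 hx
      refine e1.trans ?_
      have := hreal p.1.1 p.2.1 p.2.2 (ι x)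
      gcongr
    have hrealpt : ∀ x : H, ∃ C, ∀ p : J, ‖g p (ι x)‖ ≤ C := by
      intro x
      obtain ⟨y, hy, z, hz, rfl⟩ := hP.generating x
      obtain ⟨C1, hC1⟩ := hcone y hy
      obtain ⟨C2, hC2⟩ := hcone z hz
      refine ⟨C1 + C2, fun p => ?_⟩
      rw [map_sub, map_sub]
      exact (norm_sub_le _ _).trans (add_le_add (hC1 p) (hC2 p))
    have hpt : ∀ z : E, ∃ C, ∀ p : J, ‖g p z‖ ≤ C := by
      intro z
      obtain ⟨x, y, rfl⟩ := hι.decomp z
      obtain ⟨C1, hC1⟩ := hrealpt x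
      obtain ⟨C2, hC2⟩ := hrealpt y
      refine ⟨C1 + C2, fun p => ?_⟩
      rw [map_add, map_smul]
      refine (norm_add_le _ _).trans (add_le_add (hC1 p) ?_)
      rw [norm_smul, Complex.norm_I, one_mul]
      exact hC2 p
    obtain ⟨K, hK⟩ := banach_steinhaus hpt
    refine gp ha h0 hc hup hlow' hδ0 (K := max K 0) (le_max_right _ _) ?_
    intro a ha1 ha2 ξ x
    have e1 := hg ⟨(a, ξ), ha1, ha2⟩ x
    rw [← e1]
    exact (g ⟨(a, ξ), ha1, ha2⟩).le_of_opNorm_le ((hK _).trans (le_max_left _ _)) x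

end Pool.Agent.Results.MP_e5770a_an.PositiveGroups
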